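import Pool.Agent.Lib.MP_0bb3d8_nt.A8
import Pool.Agent.Lib.MP_0bb3d8_nt.A9
import Pool.Agent.Lib.MP_0bb3d8_nt.PrimesOK
import Pool.Agent.Lib.MP_0bb3d8_nt.HohMain

/-!
# MP_0bb3d8_nt: every sufficiently large real number is a degree in the Selberg class
-/

set_option autoImplicit false

namespace Pool.Agent.Results.MP_0bb3d8_nt.AllLargeDegrees

/-- `InSelbergClass a m d`: the Dirichlet series `∑ a(n) n^{-s}` belongs to the Selberg class,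
`(s - 1)^m` times it extends to an entire function, and it has a functional equation of
degree `d`.  The fields are the four axioms of the class. -/
def InSelbergClass (a : ℕ → ℂ) (m : ℕ) (d : ℝ) : Prop :=
  a 1 = 1 ∧
  -- absolute convergence for `Re s > 1`
  (∀ s : ℂ, 1 < s.re → LSeriesSummable a s) ∧
  -- Ramanujan bound
  (∀ ε : ℝ, 0 < ε → ∃ C : ℝ, ∀ n : ℕ, 1 ≤ n → ‖a n‖ ≤ C * (n : ℝ) ^ ε) ∧
  -- continuation of finite order, and the functional equation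
  (∃ F : ℂ → ℂ, Differentiable ℂ F ∧
    (∃ ρ C : ℝ, ∀ s : ℂ, ‖F s‖ ≤ C * Real.exp (‖s‖ ^ ρ)) ∧
    (∀ s : ℂ, 1 < s.re → F s = (s - 1) ^ m * LSeries a s) ∧
    ∃ (R : ℕ) (Q : ℝ) (lam : Fin R → ℝ) (mu : Fin R → ℂ) (ω : ℂ),
      0 < Q ∧ (∀ j, 0 < lam j) ∧ (∀ j, 0 ≤ (mu j).re) ∧ ‖ω‖ = 1 ∧
      (∀ s : ℂ, s ≠ 0 → s ≠ 1 →
        (∀ j, ∀ n : ℕ, (lam j : ℂ) * s + mu j ≠ -(n : ℂ)) →
        (∀ j, ∀ n : ℕ, (lam j : ℂ) * (1 - starRingEnd ℂ s) + mu j ≠ -(n : ℂ)) →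
        F s / (s - 1) ^ m * (Q : ℂ) ^ s * ∏ j, Complex.Gamma ((lam j : ℂ) * s + mu j)
          = ω * starRingEnd ℂ
              (F (1 - starRingEnd ℂ s) / (1 - starRingEnd ℂ s - 1) ^ m
                * (Q : ℂ) ^ (1 - starRingEnd ℂ s)
                * ∏ j, Complex.Gamma ((lam j : ℂ) * (1 - starRingEnd ℂ s) + mu j))) ∧
      d = 2 * ∑ j, lam j) ∧
  -- Euler product
  (∃ (b : ℕ → ℂ) (θ : ℝ), θ < 1 / 2 ∧
    (∃ C : ℝ, ∀ p k : ℕ, p.Prime → 1 ≤ k → ‖b (p ^ k)‖ ≤ C * ((p ^ k : ℕ) : ℝ) ^ θ) ∧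
    (∀ s : ℂ, 1 < s.re →
      HasProd (fun p : Nat.Primes =>
        Complex.exp (∑' k : ℕ, b ((p : ℕ) ^ (k + 1)) *
          ((p : ℕ) : ℂ) ^ (-(((k + 1 : ℕ) : ℂ) * s))))
        (LSeries a s)))

/-- There is `d₀` such that every real `d ≥ d₀`, integer or not, is the degree of an entire
element of the Selberg class with real coefficients bounded by `1`. -/
theorem result : ∃ d₀ : ℝ, ∀ d : ℝ, d₀ ≤ d → ∃ a : ℕ → ℝ, (∀ n, |a n| ≤ 1) ∧
    InSelbergClass (fun n => (a n : ℂ)) 0 d := by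
  obtain ⟨c, c₁, C₁, X₀, hP⟩ := Pool.Agent.Lib.MP_0bb3d8_nt.primesOK_of Hoh.hoheisel
    Hoh.brunTitchmarsh'
  have hc : 0 < c := hP.1
  refine ⟨2 * max (2 / c) 4, fun d hd => ?_⟩
  have h1 : max (2 / c) 4 ≤ d / 2 := by linarith
  have hN1 : 2 / c ≤ d / 2 := (le_max_left _ _).trans h1
  have hN2 : (4 : ℝ) ≤ d / 2 := (le_max_right _ _).trans h1
  have hk1 : 1 < d / 2 := by linarith
  obtain ⟨L, b, hL, hb, hb1, h⟩ := Pool.Agent.Lib.MP_0bb3d8_nt.exists_solution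
    (k := d / 2) hP hN1 hN2
  obtain ⟨e1, ha, F, hF, hord, hser, hfe, hep⟩ :=
    Pool.Agent.Lib.MP_0bb3d8_nt.selberg_data hk1 hL b hb hb1 h
  refine ⟨Pool.Agent.Lib.MP_0bb3d8_nt.coef b, ha, by simp [e1], ?_, ?_, ⟨F, hF, hord, ?_, 1,
    L ^ (-(d / 2)), fun _ => d / 2, fun _ => 0, 1, Real.rpow_pos_of_pos hL _,
    fun _ => by linarith, fun _ => by simp, by simp, ?_, ?_⟩, fun n => (b n : ℂ), 0,
    by norm_num, ⟨1, ?_⟩, hep⟩
  · intro s hs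
    exact (Pool.Agent.Lib.MP_0bb3d8_nt.A9.summable_term ha hs).of_norm
  · intro ε hε
    refine ⟨1, fun n hn => ?_⟩
    have hn' : (1 : ℝ) ≤ n := by exact_mod_cast hn
    rw [Complex.norm_real, Real.norm_eq_abs, one_mul]
    exact (ha n).trans (Real.one_le_rpow hn' hε.le)
  · intro s hs
    rw [pow_zero, one_mul]
    exact hser s hs
  · intro s _ _ h1 h2
    have h1' : ∀ n : ℕ, ((d / 2 : ℝ) : ℂ) * s ≠ -(n : ℂ) := fun n => by simpa using h1 0 n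
    have h2' : ∀ n : ℕ, ((d / 2 : ℝ) : ℂ) * (1 - starRingEnd ℂ s) ≠ -(n : ℂ) := fun n => by
      simpa using h2 0 n
    have := hfe s h1' h2'
    simpa using this
  · simp
    ring
  · intro p j hp hj
    rw [Complex.norm_real, Real.norm_eq_abs, Real.rpow_zero, mul_one]
    exact hb1 _

end Pool.Agent.Results.MP_0bb3d8_nt.AllLargeDegrees
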